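import Pool.Agent.W2helper45.UC.All

/-!
# Order complexes of lattices of flats of uniform matroids and Chow rings
-/

set_option autoImplicit false

open Pool.Agent.W2helper45.UC
open Pool.Agent.X153.CH (flats chains hPoly)

namespace Pool.Agent.Results.MP_0f948c_co.OrderComplexAndChowRings

/-- For all `1 ≤ r < n` the `h`-polynomial of the order complex of the lattice of flats `flats n r`
of the uniform matroid `U_{n,r}` is
`t² ∑_{j=1}^r C(n-j-1, r-j) H(A(U_{n,j}), t)`. Here

* `chains (flats n r)` is the set of all faces of the order complex (the empty one included) and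
  `hPoly` its `h`-polynomial (`Pool.Agent.X153.CH`);
* `Chow n j` is the Chow ring of `U_{n,j}`: the quotient of the polynomial ring over `ℚ` in the
  variables `x_F`, `F` a nonempty proper flat, by the ideal `I + J` (`chowIdeal n j`), where `I` is
  generated by the products `x_F x_G` with `F`, `G` incomparable and `J` by the linear forms
  `∑_{F ∋ i} x_F - ∑_{F ∋ j} x_F`; `gr n j k` is its part of degree `k` and
  `hilb n j = ∑_k dim (gr n j k) t^k` its Hilbert series (`UC/Defs`).

The identity is one of power series in `t`. -/
theorem result (n r : ℕ) (hr : 1 ≤ r) (hn : r < n) :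
    ((hPoly (chains (flats n r)) : Polynomial ℤ) : PowerSeries ℤ) =
      PowerSeries.X ^ 2 *
        ∑ j ∈ Finset.Icc 1 r, ((n - j - 1).choose (r - j) : PowerSeries ℤ) * hilb n j :=
  final all_asm n r hr hn

end Pool.Agent.Results.MP_0f948c_co.OrderComplexAndChowRings
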